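import Mathlib
import Pool.Agent.P.MP_f33f0c_an.AllP2

set_option autoImplicit false

namespace Pool.Agent.Results.MP_f33f0c_an.AllExponents

open MeasureTheory Pool.Agent.P.MP_f33f0c_an.AllP

/-- For every `p > 2` there is a bounded multiplier on the circle that maps `L^2` to weak `L^p`,
hence is of weak type `(p,p)`, and that is unbounded from the sup norm to `L^p`, hence is not of
strong type `(p,p)`. -/
theorem result (p : ℝ) (hp : 2 < p) : ∃ m : ℤ → ℂ, (∀ n, ‖m n‖ ≤ 1) ∧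
    (∀ (S : Finset ℤ) (c : ℤ → ℂ) (t : ℝ), 0 < t →
      volume {x : ℝ | x ∈ Set.Icc (0 : ℝ) 1 ∧
          t < ‖∑ n ∈ S, m n * c n * Complex.exp (2 * Real.pi * Complex.I * n * x)‖} ≤
        ENNReal.ofReal ((∫ x in (0 : ℝ)..1,
          ‖∑ n ∈ S, c n * Complex.exp (2 * Real.pi * Complex.I * n * x)‖ ^ 2) ^ (p / 2) / t ^ p)) ∧
    (∀ (S : Finset ℤ) (c : ℤ → ℂ) (t : ℝ), 0 < t →
      volume {x : ℝ | x ∈ Set.Icc (0 : ℝ) 1 ∧
          t < ‖∑ n ∈ S, m n * c n * Complex.exp (2 * Real.pi * Complex.I * n * x)‖} ≤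
        ENNReal.ofReal ((∫ x in (0 : ℝ)..1,
          ‖∑ n ∈ S, c n * Complex.exp (2 * Real.pi * Complex.I * n * x)‖ ^ p) / t ^ p)) ∧
    (∀ C : ℝ, ∃ (S : Finset ℤ) (c : ℤ → ℂ),
      (∀ x : ℝ, ‖∑ n ∈ S, c n * Complex.exp (2 * Real.pi * Complex.I * n * x)‖ ≤ 1) ∧
      C < ∫ x in (0 : ℝ)..1,
        ‖∑ n ∈ S, m n * c n * Complex.exp (2 * Real.pi * Complex.I * n * x)‖ ^ p) ∧
    ¬ ∃ C : ℝ, ∀ (S : Finset ℤ) (c : ℤ → ℂ),
      (∫ x in (0 : ℝ)..1,
        ‖∑ n ∈ S, m n * c n * Complex.exp (2 * Real.pi * Complex.I * n * x)‖ ^ p) ≤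
      C * ∫ x in (0 : ℝ)..1,
        ‖∑ n ∈ S, c n * Complex.exp (2 * Real.pi * Complex.I * n * x)‖ ^ p := by
  obtain ⟨m, h1, h2⟩ := main_q (q := p / 2) (by linarith)
  have e : ∀ a : ℝ, 0 ≤ a → (a ^ 2) ^ (p / 2) = a ^ p := fun a ha => by
    rw [sq_rpow ha]
    congr 1
    ring
  have a1 : ∀ (S : Finset ℤ) (c : ℤ → ℂ) (t : ℝ), 0 < t →
      volume {x : ℝ | x ∈ Set.Icc (0 : ℝ) 1 ∧
          t < ‖poly S (fun k => m k * c k) x‖} ≤
        ENNReal.ofReal ((∫ x in (0 : ℝ)..1, ‖poly S c x‖ ^ 2) ^ (p / 2) / t ^ p) :=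
    fun S c t ht => by simpa only [e t ht.le] using h1 S c t ht
  have a2 : ∀ (S : Finset ℤ) (c : ℤ → ℂ) (t : ℝ), 0 < t →
      volume {x : ℝ | x ∈ Set.Icc (0 : ℝ) 1 ∧
          t < ‖poly S (fun k => m k * c k) x‖} ≤
        ENNReal.ofReal ((∫ x in (0 : ℝ)..1, ‖poly S c x‖ ^ p) / t ^ p) := by
    intro S c t ht
    refine (a1 S c t ht).trans (ENNReal.ofReal_le_ofReal ?_)
    refine div_le_div_of_nonneg_right ?_ (by positivity)
    have := rpow_integral_le (h := fun x => ‖poly S c x‖ ^ 2)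
      (by fun_prop) (fun x => by positivity) (q := p / 2) (by linarith)
    simpa only [e _ (norm_nonneg _)] using this
  have a3 : ∀ C : ℝ, ∃ (S : Finset ℤ) (c : ℤ → ℂ), (∀ x, ‖poly S c x‖ ≤ 1) ∧
      C < ∫ x in (0 : ℝ)..1, ‖poly S (fun k => m k * c k) x‖ ^ p := by
    intro C
    obtain ⟨S, c, b1, b2⟩ := h2 C
    exact ⟨S, c, b1, by simpa only [e _ (norm_nonneg _)] using b2⟩
  refine ⟨m, fun n => ?_, a1, a2, a3, ?_⟩
  · by_contra hn
    obtain ⟨t, t1, t2⟩ := exists_between (not_le.1 hn)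
    have h3 := a1 {n} (fun _ => 1) t (by linarith)
    simp only [poly, Finset.sum_singleton, mul_one, one_mul, norm_mul,
      norm_ee, t2, and_true, Set.ofPred_mem_eq, Real.volume_Icc, one_pow,
      intervalIntegral.integral_const, sub_zero, smul_eq_mul, Real.one_rpow] at h3
    have h4 : 1 < t ^ p := Real.one_lt_rpow t1 (by linarith)
    rw [ENNReal.ofReal_le_ofReal_iff (by positivity), le_div_iff₀ (by linarith)] at h3
    linarith
  · rintro ⟨C, hC⟩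
    obtain ⟨S, c, b1, b2⟩ := a3 |C|
    have h3 : (∫ x in (0 : ℝ)..1, ‖poly S (fun k => m k * c k) x‖ ^ p) ≤
        C * ∫ x in (0 : ℝ)..1, ‖poly S c x‖ ^ p := hC S c
    have h4 : 0 ≤ ∫ x in (0 : ℝ)..1, ‖poly S c x‖ ^ p :=
      intervalIntegral.integral_nonneg zero_le_one fun x _ => by positivity
    have h5 : (∫ x in (0 : ℝ)..1, ‖poly S c x‖ ^ p) ≤ 1 := by
      simpa using intervalIntegral.integral_mono_on (μ := volume) zero_le_one
        (Continuous.intervalIntegrable (cont_rpow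
          (h := fun x => ‖poly S c x‖) (by fun_prop) (by linarith : 0 ≤ p)) _ _)
        (Continuous.intervalIntegrable (continuous_const (y := (1 : ℝ))) _ _)
        fun x _ => Real.rpow_le_one (norm_nonneg _) (b1 x) (by linarith)
    nlinarith [le_abs_self C, abs_nonneg C, mul_le_mul_of_nonneg_right (le_abs_self C) h4,
      mul_le_mul_of_nonneg_left h5 (abs_nonneg C)]

end Pool.Agent.Results.MP_f33f0c_an.AllExponents
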